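import Pool.Agent.helper54.XP.SpecG

/-! # Project xp (MP_af9036_an): module GM1 (sets without coincidences have multiplicity one) -/

set_option autoImplicit false

open Complex Metric Set Filter Topology MeasureTheory XP
open V3S (UF)

noncomputable section

namespace XPG

theorem GM1_two {S : Finset ℕ} (h : ¬ S.card ≤ 1) : ∃ i ∈ S, ∃ j ∈ S, i < j := by
  rw [not_le, Finset.one_lt_card] at h
  obtain ⟨a, ha, b, hb, hab⟩ := h
  rcases lt_or_gt_of_ne hab with h1 | h1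
  · exact ⟨a, ha, b, hb, h1⟩
  · exact ⟨b, hb, a, ha, h1⟩

theorem GM1 (hGSE : GSE_stmt) (hTUL : V3.TUL_stmt) : GM1_stmt := by
  intro n C C' C'' D A hS hL hA ρ δ K hδ hKρ hK
  by_contra hcon
  rw [V3S.UF_not] at hcon
  have h1 : ∀ m, ∃ (i j : ℕ) (x x' : ℂ), (¬ ∀ (z : ℂ) (S : Finset ℕ),
      ((∀ j ∈ S, j < (D m).k) ∨ (∀ j ∈ S, 1 ≤ j ∧ j ≤ (D m).k)) →
      (∀ j ∈ S, ∃ x ∈ K, (D m).F j x = z) → S.card ≤ 1) →
      (i < j ∧ j - i < (D m).k ∧ j ≤ (D m).k ∧ x ∈ K ∧ x' ∈ K ∧ (D m).F i x = (D m).F j x') := by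
    intro m
    by_cases h : ∀ (z : ℂ) (S : Finset ℕ),
      ((∀ j ∈ S, j < (D m).k) ∨ (∀ j ∈ S, 1 ≤ j ∧ j ≤ (D m).k)) →
      (∀ j ∈ S, ∃ x ∈ K, (D m).F j x = z) → S.card ≤ 1
    · exact ⟨0, 0, 0, 0, fun h' => absurd h h'⟩
    · have h' := h
      push Not at h'
      obtain ⟨z, S, hS1, hS2, hS3⟩ := h'
      obtain ⟨i, hi, j, hj, hij⟩ := GM1_two (not_le.2 hS3)
      obtain ⟨x, hx, hxz⟩ := hS2 i hi
      obtain ⟨x', hx', hxz'⟩ := hS2 j hj
      refine ⟨i, j, x, x', fun _ => ⟨hij, ?_, ?_, hx, hx', by rw [hxz, hxz']⟩⟩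
      · rcases hS1 with h2 | h2
        · have := h2 j hj
          omega
        · have := h2 j hj
          have := h2 i hi
          omega
      · rcases hS1 with h2 | h2
        · exact (h2 j hj).le
        · exact (h2 j hj).2
  choose i j x x' h2 using h1
  have h3 : ∀ᶠ m in UF, i m < j m ∧ j m - i m < (D m).k ∧ j m ≤ (D m).k ∧ x m ∈ K ∧ x' m ∈ K ∧
      (D m).F (i m) (x m) = (D m).F (j m) (x' m) := by
    filter_upwards [hcon] with m hm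
    exact h2 m hm
  have hb : ∀ᶠ m in UF, ‖x m‖ ≤ ρ := by
    filter_upwards [h3] with m hm
    have := hKρ hm.2.2.2.1
    rw [mem_ball_zero_iff] at this
    exact this.le
  have hb' : ∀ᶠ m in UF, ‖x' m‖ ≤ ρ := by
    filter_upwards [h3] with m hm
    have := hKρ hm.2.2.2.2.1
    rw [mem_ball_zero_iff] at this
    exact this.le
  obtain ⟨X, -, hX⟩ := hTUL (hyperfilter ℕ) x ρ hb
  obtain ⟨X', -, hX'⟩ := hTUL (hyperfilter ℕ) x' ρ hb'
  have hX1 : Tendsto x UF (𝓝 X) := hX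
  have hX1' : Tendsto x' UF (𝓝 X') := hX'
  obtain ⟨p, hp, hp0, -, hpX⟩ := hGSE n C C' C'' D A hS hL hA i j x x' ρ X X' (by
    filter_upwards [h3] with m hm
    have e1 := hKρ hm.2.2.2.1
    have e2 := hKρ hm.2.2.2.2.1
    rw [mem_ball_zero_iff] at e1 e2
    exact ⟨hm.1, hm.2.1, hm.2.2.1, e1, e2, hm.2.2.2.2.2⟩) hX1 hX1'
  have h4 : Tendsto (fun m => ‖x' m - (p + A p * x m)‖) UF (𝓝 ‖X' - (p + A p * X)‖) :=
    (hX1'.sub ((hX1.const_mul (A p)).const_add p)).norm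
  have h5 : ∀ᶠ m in UF, δ ≤ ‖x' m - (p + A p * x m)‖ := by
    filter_upwards [h3] with m hm
    exact hK (x m) hm.2.2.2.1 (x' m) hm.2.2.2.2.1 p hp hp0
  have h6 : δ ≤ ‖X' - (p + A p * X)‖ := ge_of_tendsto h4 h5
  rw [hpX, sub_self, norm_zero] at h6
  linarith

end XPG
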