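import Pool.Agent.helper60.XP.SpecT
import Pool.Agent.helper8.V3.CAF

set_option autoImplicit false

open Complex Metric Set Filter Topology MeasureTheory
open V3S (UF)
open XP

noncomputable section

namespace XPT

theorem PHC_F0 (D : Dat) (h : D.sg ≠ 0) (x : ℂ) : D.F 0 x = x := by
  simp only [Dat.F, Function.iterate_zero, id_eq, Dat.xx, Dat.zz]
  field_simp
  ring

theorem PHC_zx (D : Dat) (h : D.sg ≠ 0) (z : ℂ) : D.zz (D.xx z) = z := by
  simp only [Dat.xx, Dat.zz]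
  field_simp
  ring

theorem PHC : PHC_stmt := by
  intro n C A c D hG x₀ ρ r χ Ψ hS C₂ ε₁ hC₂ hε₁ hsg hle hdis
  have hsg0 : D.sg ≠ 0 := by
    have h1 := hG.Rpos 0
    simp only [Dat.sg]
    exact_mod_cast h1.ne'
  have hr := hS.r0
  have h2r : 0 < 2 * r := by linarith
  have h0mem : (0 : ℂ) ∈ ball (0 : ℂ) (2 * r) := mem_ball_self h2r
  have h0 : deriv χ 0 ≠ 0 := by
    intro h
    have h1 := hS.nat.eq 0 h0mem
    rw [h] at h1
    norm_num at h1
  have hs0 : 0 < ‖deriv χ 0‖ := norm_pos_iff.mpr h0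
  have htwo := V3S.CAF_two χ (2 * r) hS.nat.diff hS.aff
  have hsurj := V3S.CAF_surj χ (2 * r) hS.nat.diff hS.aff h0 (2 * r) h2r le_rfl
  set S : Set ℂ := ball (χ 0) (9 / 10 * (2 * r) * ‖deriv χ 0‖) with hSdef
  let g : ℂ → ℂ := Function.invFunOn χ (ball 0 (2 * r))
  have hg1 : ∀ z ∈ S, g z ∈ ball (0 : ℂ) (2 * r) := fun z hz =>
    Function.invFunOn_mem (by obtain ⟨a, ha, hb⟩ := hsurj hz; exact ⟨a, ha, hb⟩)
  have hg2 : ∀ z ∈ S, χ (g z) = z := fun z hz =>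
    Function.invFunOn_eq (by obtain ⟨a, ha, hb⟩ := hsurj hz; exact ⟨a, ha, hb⟩)
  have hlip : ∀ z ∈ S, ∀ a ∈ S, 9 / 10 * ‖deriv χ 0‖ * ‖g z - g a‖ ≤ ‖z - a‖ := by
    intro z hz a ha
    have h1 := (htwo (g z) (hg1 z hz) (g a) (hg1 a ha)).1
    rw [hg2 z hz, hg2 a ha] at h1
    exact h1
  have hSo : IsOpen S := isOpen_ball
  have hcont : ∀ a ∈ S, ContinuousAt g a := by
    intro a ha
    rw [Metric.continuousAt_iff]
    intro ε hε
    obtain ⟨δ, hδ, hδS⟩ := Metric.isOpen_iff.1 hSo a ha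
    refine ⟨min δ (9 / 10 * ‖deriv χ 0‖ * ε), lt_min hδ (by positivity), ?_⟩
    intro z hz
    have hzS : z ∈ S := hδS (lt_of_lt_of_le hz (min_le_left _ _))
    have h1 := hlip z hzS a ha
    have h2 : dist z a < 9 / 10 * ‖deriv χ 0‖ * ε := lt_of_lt_of_le hz (min_le_right _ _)
    rw [dist_eq_norm] at h2 ⊢
    have h3 : 9 / 10 * ‖deriv χ 0‖ * ‖g z - g a‖ < 9 / 10 * ‖deriv χ 0‖ * ε := lt_of_le_of_lt h1 h2
    exact lt_of_mul_lt_mul_left h3 (by positivity)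
  have hder : ∀ a ∈ S, DifferentiableAt ℂ g a := by
    intro a ha
    have hd : HasDerivAt χ (deriv χ (g a)) (g a) :=
      (hS.nat.diff.differentiableAt (isOpen_ball.mem_nhds (hg1 a ha))).hasDerivAt
    have hne : deriv χ (g a) ≠ 0 := by
      intro h
      have h1 := hS.nat.eq (g a) (hg1 a ha)
      rw [h] at h1
      norm_num at h1
    have hev : ∀ᶠ y in 𝓝 a, χ (g y) = y := by
      filter_upwards [hSo.mem_nhds ha] with y hy using hg2 y hy
    exact (HasDerivAt.of_local_left_inverse (hcont a ha) hd hne hev).differentiableAt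
  have htw : ∀ w, tw D Ψ χ D.K w = D.zz (Ψ (D.xx (χ w))) := by
    intro w
    simp only [tw, Nat.sub_self]
    rw [PHC_F0 D hsg0]
  have hsub : ball (0 : ℂ) r ⊆ ball 0 (2 * r) := ball_subset_ball (by linarith)
  have hdisp : ∀ w ∈ ball (0 : ℂ) (2 * r), ‖tw D Ψ χ D.K w - χ w‖ ≤ C₂ * ε₁ * ‖deriv χ 0‖ := by
    intro w hw
    rw [htw w]
    have h1 : D.b 0 + D.sg * D.xx (χ w) = χ w := PHC_zx D hsg0 (χ w)
    have h2 : D.zz (Ψ (D.xx (χ w))) - χ w = D.sg * (Ψ (D.xx (χ w)) - D.xx (χ w)) := by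
      simp only [Dat.zz]
      linear_combination h1
    rw [h2, norm_mul]
    have h3 := hdis _ (hS.mp w hw)
    calc ‖D.sg‖ * ‖Ψ (D.xx (χ w)) - D.xx (χ w)‖ ≤ (C₂ * ‖deriv χ 0‖) * ε₁ := by
          apply mul_le_mul hsg h3 (norm_nonneg _) (by positivity)
      _ = C₂ * ε₁ * ‖deriv χ 0‖ := by ring
  have hin : ∀ w ∈ ball (0 : ℂ) r, tw D Ψ χ D.K w ∈ S := by
    intro w hw
    have h1 := hdisp w (hsub hw)
    have h2 := (htwo w (hsub hw) 0 h0mem).2
    rw [sub_zero] at h2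
    have hw' : ‖w‖ < r := by simpa using hw
    rw [hSdef, mem_ball, dist_eq_norm]
    have h3 : ‖tw D Ψ χ D.K w - χ 0‖ ≤ ‖tw D Ψ χ D.K w - χ w‖ + ‖χ w - χ 0‖ := by
      have h4 := norm_add_le (tw D Ψ χ D.K w - χ w) (χ w - χ 0)
      rw [sub_add_sub_cancel] at h4
      exact h4
    have h5 : C₂ * ε₁ * ‖deriv χ 0‖ ≤ r / 10 * ‖deriv χ 0‖ :=
      mul_le_mul_of_nonneg_right hle hs0.le
    have h6 : 11 / 10 * ‖deriv χ 0‖ * ‖w‖ ≤ 11 / 10 * ‖deriv χ 0‖ * r :=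
      mul_le_mul_of_nonneg_left hw'.le (by positivity)
    have h7 : 0 < ‖deriv χ 0‖ * r := by positivity
    nlinarith
  refine ⟨fun w => g (tw D Ψ χ D.K w), ?_, ?_⟩
  · intro w hw
    have hχ : DifferentiableAt ℂ χ w := hS.nat.diff.differentiableAt (isOpen_ball.mem_nhds (hsub hw))
    have hmp := hS.mp w (hsub hw)
    have hΨ : DifferentiableAt ℂ Ψ (D.xx (χ w)) := hS.psd.differentiableAt (isOpen_ball.mem_nhds hmp)
    have h1 : DifferentiableAt ℂ (fun w => D.xx (χ w)) w := by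
      simp only [Dat.xx]
      exact (hχ.sub_const _).div_const _
    have h2 : DifferentiableAt ℂ (fun w => Ψ (D.xx (χ w))) w := DifferentiableAt.comp w hΨ h1
    have h3 : DifferentiableAt ℂ (fun w => tw D Ψ χ D.K w) w := by
      have h4 : (fun w => tw D Ψ χ D.K w) = fun w => D.b 0 + D.sg * Ψ (D.xx (χ w)) := by
        funext w
        rw [htw w]
        rfl
      rw [h4]
      exact (h2.const_mul _).const_add _
    exact (DifferentiableAt.comp w (hder _ (hin w hw)) h3).differentiableWithinAt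
  · intro w hw
    have hi := hin w hw
    refine ⟨hg1 _ hi, ?_, hg2 _ hi⟩
    have h1 := (htwo (g (tw D Ψ χ D.K w)) (hg1 _ hi) w (hsub hw)).1
    rw [hg2 _ hi] at h1
    have h2 := hdisp w (hsub hw)
    have h3 : ‖deriv χ 0‖ * (9 / 10 * ‖g (tw D Ψ χ D.K w) - w‖) ≤ ‖deriv χ 0‖ * (C₂ * ε₁) := by
      nlinarith
    have h4 : 9 / 10 * ‖g (tw D Ψ χ D.K w) - w‖ ≤ C₂ * ε₁ := le_of_mul_le_mul_left h3 hs0
    have h5 : 0 ≤ C₂ * ε₁ := by positivity
    show ‖g (tw D Ψ χ D.K w) - w‖ ≤ 2 * C₂ * ε₁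
    nlinarith

end XPT
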